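import Pool.Agent.Lib.MP_4fbe7c_an.WN.Base

/-!
Project WN (MP_4fbe7c_an), module ALG: the pointwise inequality, in one coordinate (helper20).
-/

set_option autoImplicit false

open Set MeasureTheory

namespace Pool.Agent.Lib.MP_4fbe7c_an.WN.H20

open Pool.Agent.Lib.MP_4fbe7c_an.UL Pool.Agent.Lib.MP_4fbe7c_an.ND
open Pool.Agent.Lib.MP_4fbe7c_an.WN

theorem alg_st (hPHI : PhiStatement) (hALI : AliStatement) (hALB : AlbStatement)
    (hALP : AlpStatement) : AlgWStatement := by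
  intro n K κ r z ζ hK hr ρ' hρ
  have h2 : 0 ≤ Ph2 (r 0) := (hPHI.1 (r 0) (hr 0 (Nat.zero_le n))).2.2.1
  rcases Nat.eq_zero_or_pos n with rfl | hn
  · have e1 : qv 0 ρ' 1 = 0 := by simp [qv]
    have e2 : qv 0 r 1 = 0 := by simp [qv]
    have e3 : qv 0 ρ' 0 = ρ' 0 := by simp [qv]
    have e4 : Gf 0 κ (wa K) (wb K) r ρ' 0 = Ph2 (r 0) * ρ' 0 := by
      simp [Gf, Ng, Nq, e1, e2]
    rw [e1, e2, Finset.sum_range_one, e4]
    have : 0 ≤ ρ' 0 * (Ph2 (r 0) * ρ' 0) := by nlinarith [mul_nonneg h2 (sq_nonneg (ρ' 0))]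
    simpa using this
  · have hK0 : 0 < K := hK.pos hn
    have hK1 : (1 + K) ≠ 0 := by positivity
    have hs : 0 < wid K := wid_pos hK0
    set ω : ℝ := ζ / (1 + K) with hω
    set zh : ℕ → ℝ := fun k => qv n ρ' k + K * ω * qv n r k with hzh
    have hζ : ζ = (1 + K) * ω := by rw [hω]; field_simp
    have hq : ∀ k, qv n ρ' k = qv n z k - ζ * qv n r k := by
      intro k
      unfold qv
      rw [Finset.mul_sum, ← Finset.sum_sub_distrib]
      exact Finset.sum_congr rfl fun i _ => by rw [hρ i]; ring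
    have hz : ∀ k, qv n z k = zh k + qv n r k * ω := by
      intro k
      have e0 := hq k
      have e1 : zh k = qv n ρ' k + K * ω * qv n r k := rfl
      have e2 : ζ * qv n r k = (1 + K) * ω * qv n r k := congrArg (· * qv n r k) hζ
      rw [e1]
      linear_combination -e0 + e2
    rw [hALI n K (wid K) (wa K) (wb K) κ r z ζ hn hK0 hs hK.one ρ' zh ω hρ rfl (fun k => rfl)]
    obtain ⟨v, m2, C2, N2, yh, yb, S6, S7, hv, hm2, hC2, hN2, hyh, hyb, hS6, hS7, b1, b2, b3, b4,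
      b5, b6, b7, b8, b9⟩ := hALB n (wid K) κ r zh z ω hn hs hK.one hK.mono hK.le
        (fun i hi => (hr i hi).le) hz
    rw [← hm2, ← hC2, ← hN2, ← hyh, ← hyb, ← hS6, ← hS7, ← hv]
    have hv0 : 0 ≤ v := by rw [hv]; exact qv_nonneg fun i hi => (hr i hi).le
    have hvR : v ≤ qv n r 0 := by
      rw [hv]; exact qv_anti (fun i hi => (hr i hi).le) (Nat.zero_le 1)
    have key := hALP K v (qv n r 0) ω (qv n ρ' 0) (zh 1) m2 C2 N2 yh yb S6 S7 hK0 hv0 hvR b1 b2 b3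
      b4 b5 b6 b7 b8 b9
    have e : qv n ρ' 1 ^ 2 + K * (qv n ρ' 1 + v * ζ) ^ 2
        = (1 + K) * zh 1 ^ 2 + K * (1 + K) * v ^ 2 * ω ^ 2 := by
      have e1 : zh 1 = qv n ρ' 1 + K * ω * v := by rw [hv]
      rw [e1, hζ]
      ring
    rw [e]
    have h3 : 0 ≤ Ph2 (r 0) * ρ' 0 ^ 2 := mul_nonneg h2 (sq_nonneg _)
    linarith

end Pool.Agent.Lib.MP_4fbe7c_an.WN.H20
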